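import Pool.Agent.K1H44.AL.Plan
import Pool.Agent.H559R3.W.TaskEP

/-! # Project AL (MP_88bd62_nt): the Euler product with the primes below 256 -/

set_option autoImplicit false

open Finset ArithmeticFunction Filter Topology Complex

namespace Pool.Agent.K1H1.AL

open Pool.Agent.H295R3.W Pool.Agent.H559R3.W Pool.Agent.K1H44.AL

theorem prime_tail' (n : ℕ) :
    ∑ p ∈ (Ico 1000 n).filter Nat.Prime, 1 / (p : ℝ) ^ 2 ≤ 1 / 2000 := by
  have h1 : ∑ p ∈ (Ico 1000 n).filter Nat.Prime, 1 / (p : ℝ) ^ 2 ≤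
      ∑ p ∈ (range n).image (fun m : ℕ => (2 * (500 + m) + 1 : ℕ)), 1 / ((p : ℕ) : ℝ) ^ 2 := by
    refine Finset.sum_le_sum_of_subset_of_nonneg ?_ (fun _ _ _ => by positivity)
    intro p hp
    rw [Finset.mem_filter, Finset.mem_Ico] at hp
    rw [Finset.mem_image]
    have h2 : p % 2 = 1 := Nat.odd_iff.1 (hp.2.odd_of_ne_two (by omega))
    exact ⟨p / 2 - 500, by rw [Finset.mem_range]; omega, by omega⟩
  rw [Finset.sum_image (by intro a _ b _ hab; simpa using hab)] at h1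
  have h2 := odd_tail 500 n (by norm_num)
  have h3 : 0 ≤ 1 / (4 * (((500 : ℕ) : ℝ) + n)) := by positivity
  push_cast at h1 h2 h3
  norm_num at h1 h2 ⊢
  have h4 : 0 ≤ (500 + (n : ℝ))⁻¹ * (1 / 4) := by positivity
  linarith

/-- no prime factor up to `31` -/
def cd (p : ℕ) : Bool :=
  p % 2 != 0 && p % 3 != 0 && p % 5 != 0 && p % 7 != 0 && p % 11 != 0 && p % 13 != 0 &&
    p % 17 != 0 && p % 19 != 0 && p % 23 != 0 && p % 29 != 0 && p % 31 != 0

theorem cd_prime {p : ℕ} (hp : p.Prime) (h : 256 ≤ p) : cd p = true := by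
  have key : ∀ q : ℕ, 2 ≤ q → q ≤ 31 → p % q ≠ 0 := by
    intro q h2 h31 h0
    have hd : q ∣ p := Nat.dvd_of_mod_eq_zero h0
    rcases (Nat.dvd_prime hp).mp hd with h1 | h1 <;> omega
  unfold cd
  simp only [Bool.and_eq_true, bne_iff_ne]
  repeat' apply And.intro
  all_goals exact key _ (by norm_num) (by norm_num)

theorem mid_nat : ∑ p ∈ (Ico 256 1000).filter (fun p => cd p = true), (10 ^ 12 / p ^ 2 + 1) ≤
    470769000 := by
  decide +kernel

theorem mid_sum :
    ∑ p ∈ (Ico 256 1000).filter Nat.Prime, 1 / (p : ℝ) ^ 2 ≤ 470769 / 10 ^ 9 := by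
  have h1 : ∑ p ∈ (Ico 256 1000).filter Nat.Prime, 1 / (p : ℝ) ^ 2 ≤
      ∑ p ∈ (Ico 256 1000).filter (fun p => cd p = true), 1 / (p : ℝ) ^ 2 := by
    refine Finset.sum_le_sum_of_subset_of_nonneg ?_ (fun _ _ _ => by positivity)
    intro p hp
    rw [Finset.mem_filter, Finset.mem_Ico] at hp ⊢
    exact ⟨hp.1, cd_prime hp.2 hp.1.1⟩
  have h2 : ∑ p ∈ (Ico 256 1000).filter (fun p => cd p = true), 1 / (p : ℝ) ^ 2 ≤
      ∑ p ∈ (Ico 256 1000).filter (fun p => cd p = true),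
        (((10 ^ 12 / p ^ 2 + 1 : ℕ) : ℝ) / 10 ^ 12) := by
    refine Finset.sum_le_sum fun p hp => ?_
    rw [Finset.mem_filter, Finset.mem_Ico] at hp
    have hp0 : (0 : ℝ) < (p : ℝ) ^ 2 := by
      have : (0 : ℝ) < p := by
        have : 0 < p := by omega
        exact_mod_cast this
      positivity
    rw [div_le_div_iff₀ hp0 (by positivity), one_mul]
    have h3 : 10 ^ 12 < (10 ^ 12 / p ^ 2 + 1) * p ^ 2 := by
      have : 0 < p ^ 2 := by
        have : 0 < p := by omega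
        positivity
      rw [mul_comm]
      exact Nat.lt_mul_div_succ _ this
    exact_mod_cast h3.le
  have h3 : ∑ p ∈ (Ico 256 1000).filter (fun p => cd p = true),
        (((10 ^ 12 / p ^ 2 + 1 : ℕ) : ℝ) / 10 ^ 12) =
      ((∑ p ∈ (Ico 256 1000).filter (fun p => cd p = true), (10 ^ 12 / p ^ 2 + 1) : ℕ) : ℝ) /
        10 ^ 12 := by
    rw [Nat.cast_sum, Finset.sum_div]
  have h4 : ((∑ p ∈ (Ico 256 1000).filter (fun p => cd p = true), (10 ^ 12 / p ^ 2 + 1) : ℕ) : ℝ) ≤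
      ((470769000 : ℕ) : ℝ) := Nat.cast_le.mpr mid_nat
  refine (h1.trans h2).trans ?_
  rw [h3, div_le_div_iff₀ (by positivity) (by positivity)]
  push_cast at h4 ⊢
  nlinarith

theorem prime_sum' (n : ℕ) :
    ∑ p ∈ (Ico 256 n).filter Nat.Prime, 61 / 20 / (p : ℝ) ^ 2 ≤ 297 / 100000 := by
  have h1 : ∑ p ∈ (Ico 256 n).filter Nat.Prime, 1 / (p : ℝ) ^ 2 ≤
      ∑ p ∈ (Ico 256 1000).filter Nat.Prime, 1 / (p : ℝ) ^ 2 +
        ∑ p ∈ (Ico 1000 n).filter Nat.Prime, 1 / (p : ℝ) ^ 2 := by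
    rw [← Finset.sum_union]
    · refine Finset.sum_le_sum_of_subset_of_nonneg ?_ (fun _ _ _ => by positivity)
      intro p hp
      simp only [Finset.mem_union, Finset.mem_filter, Finset.mem_Ico] at hp ⊢
      have := hp.2
      by_cases h : p < 1000
      · exact Or.inl ⟨⟨hp.1.1, h⟩, this⟩
      · exact Or.inr ⟨⟨by omega, hp.1.2⟩, this⟩
    · rw [Finset.disjoint_left]
      intro p hp hq
      simp only [Finset.mem_filter, Finset.mem_Ico] at hp hq
      omega
  have h2 := mid_sum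
  have h3 := prime_tail' n
  have h4 : ∑ p ∈ (Ico 256 n).filter Nat.Prime, 61 / 20 / (p : ℝ) ^ 2 =
      61 / 20 * ∑ p ∈ (Ico 256 n).filter Nat.Prime, 1 / (p : ℝ) ^ 2 := by
    rw [Finset.mul_sum]
    refine Finset.sum_congr rfl ?_
    intro p _
    ring
  rw [h4]
  linarith

theorem prod_bound' {s : ℂ} (hs : s.re = 1) (n : ℕ) :
    ‖∏ p ∈ (Ico 256 n).filter Nat.Prime,
      (1 - 3 * ((p : ℂ) ^ (-s)) ^ 2 + 2 * ((p : ℂ) ^ (-s)) ^ 3)⁻¹ - 1‖ ≤ 1 / 300 := by
  have h1 : ∏ p ∈ (Ico 256 n).filter Nat.Prime,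
      (1 - 3 * ((p : ℂ) ^ (-s)) ^ 2 + 2 * ((p : ℂ) ^ (-s)) ^ 3)⁻¹ =
      ∏ p ∈ (Ico 256 n).filter Nat.Prime, (1 + b s p) := by
    refine Finset.prod_congr rfl ?_
    intro p _
    unfold b
    ring
  rw [h1]
  refine (Finset.norm_prod_one_add_sub_one_le _ _).trans ?_
  have h2 : ∑ p ∈ (Ico 256 n).filter Nat.Prime, ‖b s p‖ ≤ 297 / 100000 := by
    refine (Finset.sum_le_sum ?_).trans (prime_sum' n)
    intro p hp
    rw [Finset.mem_filter, Finset.mem_Ico] at hp
    exact b_bound hs (by omega)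
  have h3 : Real.exp (∑ p ∈ (Ico 256 n).filter Nat.Prime, ‖b s p‖) ≤ Real.exp (297 / 100000) :=
    Real.exp_le_exp.2 h2
  have h4 : Real.exp (297 / 100000) ≤ 301 / 300 := by
    have h5 := Real.add_one_le_exp (-(297 / 100000) : ℝ)
    rw [Real.exp_neg] at h5
    have h6 : 0 < Real.exp (297 / 100000) := Real.exp_pos _
    have h7 : (-(297 / 100000) + 1) * Real.exp (297 / 100000) ≤ 1 := by
      calc (-(297 / 100000) + 1) * Real.exp (297 / 100000) ≤
          (Real.exp (297 / 100000))⁻¹ * Real.exp (297 / 100000) := by gcongr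
        _ = 1 := inv_mul_cancel₀ h6.ne'
    linarith
  linarith

/-- the Euler product of `Dirg` with the primes below `256` -/
theorem t_EP : S_EP := by
  intro hG s hs
  have hlim := EulerProduct.eulerProduct (F_one s) (fun {m n} hmn => F_mul s hmn)
    (F_summable hG hs) (F_zero s)
  have hD : ∑' n, F s n = Dirg s := rfl
  rw [hD] at hlim
  set P : ℂ := (1 - (2 : ℂ) ^ (-s))⁻¹ ^ 2 *
    ∏ p ∈ (Ico 3 256).filter Nat.Prime,
      (1 - 3 * ((p : ℂ) ^ (-s)) ^ 2 + 2 * ((p : ℂ) ^ (-s)) ^ 3)⁻¹ with hP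
  have hP0 : P ≠ 0 := by
    rw [hP]
    apply mul_ne_zero
    · apply pow_ne_zero
      apply inv_ne_zero
      apply one_sub_ne
      have := norm_z (p := 2) (by norm_num) hs
      push_cast at this
      rw [this]
      norm_num
    · rw [Finset.prod_ne_zero_iff]
      intro p hp
      rw [Finset.mem_filter, Finset.mem_Ico] at hp
      exact inv_ne_zero (den_ne hs hp.1.1)
  have hprod : ∀ n : ℕ, 256 ≤ n → ∏ p ∈ Nat.primesBelow n, ∑' e, F s (p ^ e) =
      P * ∏ p ∈ (Ico 256 n).filter Nat.Prime,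
        (1 - 3 * ((p : ℂ) ^ (-s)) ^ 2 + 2 * ((p : ℂ) ^ (-s)) ^ 3)⁻¹ := by
    intro n hn
    have hset : Nat.primesBelow n =
        insert 2 ((Ico 3 256).filter Nat.Prime ∪ (Ico 256 n).filter Nat.Prime) := by
      ext p
      simp only [Nat.mem_primesBelow, Finset.mem_insert, Finset.mem_union, Finset.mem_filter,
        Finset.mem_Ico]
      constructor
      · rintro ⟨h1, h2⟩
        have := h2.two_le
        by_cases h3 : p = 2
        · exact Or.inl h3
        · by_cases h4 : p < 256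
          · exact Or.inr (Or.inl ⟨⟨by omega, h4⟩, h2⟩)
          · exact Or.inr (Or.inr ⟨⟨by omega, h1⟩, h2⟩)
      · rintro (rfl | ⟨h1, h2⟩ | ⟨h1, h2⟩)
        · exact ⟨by omega, Nat.prime_two⟩
        · exact ⟨by omega, h2⟩
        · exact ⟨h1.2, h2⟩
    rw [hset, Finset.prod_insert, Finset.prod_union, local_two hG hs, hP, mul_assoc]
    · refine congrArg₂ (fun x y : ℂ => x * y) rfl
        (congrArg₂ (fun x y : ℂ => x * y) ?_ ?_)
      · refine Finset.prod_congr rfl ?_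
        intro p hp
        rw [Finset.mem_filter, Finset.mem_Ico] at hp
        exact local_odd hG hs hp.2 (by omega)
      · refine Finset.prod_congr rfl ?_
        intro p hp
        rw [Finset.mem_filter, Finset.mem_Ico] at hp
        exact local_odd hG hs hp.2 (by omega)
    · rw [Finset.disjoint_left]
      intro p hp hq
      simp only [Finset.mem_filter, Finset.mem_Ico] at hp hq
      omega
    · simp only [Finset.mem_union, Finset.mem_filter, Finset.mem_Ico]
      omega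
  refine ⟨Dirg s / P, ?_, ?_⟩
  · have h1 : Tendsto (fun n : ℕ => (∏ p ∈ Nat.primesBelow n, ∑' e, F s (p ^ e)) / P - 1) atTop
        (𝓝 (Dirg s / P - 1)) := (hlim.div_const P).sub_const 1
    refine le_of_tendsto h1.norm ?_
    filter_upwards [eventually_ge_atTop 256] with n hn
    rw [hprod n hn, mul_div_cancel_left₀ _ hP0]
    exact prod_bound' hs n
  · rw [mul_div_cancel₀ _ hP0]

end Pool.Agent.K1H1.AL
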